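import Mathlib
import Pool.Agent.Q292.Clue.Defs
import Pool.Agent.Q292.Clue.Final

/-!
# MP_b26fee_pr: the clue profile can be much smaller than the clue of a random set

There is a noise-sensitive sequence of monotone functions of fair bits, with variance bounded away
from zero and all influences within a factor `8` of each other (so no variable is a dummy), such
that for every `δ ∈ (0,1)` the ratio `E[clue (f_n | B^δ)] / cp_{f_n} (δ)` tends to infinity.

The function is `Tribes(A) ∨ (all of L majorities on B)`: the probability that all majorities are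
true tends to zero, so the function is almost determined by `A`, but majorities have square-root
total influence, so that `B` can be polynomially larger than `A` with the same influences.
-/

namespace Pool.Agent.Results.MP_b26fee_pr.ClueProfileDisproof

open Filter Topology Q292.Clue

theorem result :
    ∃ (V : ℕ → Type) (_ : ∀ n, Fintype (V n)) (_ : ∀ n, DecidableEq (V n))
      (f : ∀ n, (V n → Bool) → Bool),
      Tendsto (fun n => Fintype.card (V n)) atTop atTop ∧
      (∀ n, Monotone (f n)) ∧
      (∀ n, 1 / 4 ≤ vari (1 / 2) fun ω => val (f n ω)) ∧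
      (∀ n v, 0 < influence (1 / 2) (f n) v) ∧
      (∀ n v w, influence (1 / 2) (f n) v ≤ 8 * influence (1 / 2) (f n) w) ∧
      (∀ ε : ℝ, 0 < ε → ε < 1 → Tendsto (fun n => noiseCov (1 / 2) ε (f n)) atTop (𝓝 0)) ∧
      ∀ δ : ℝ, 0 < δ → δ < 1 → (∀ n, 0 < cp (1 / 2) (f n) δ) ∧
        Tendsto (fun n => exSub δ (clue (1 / 2) (f n)) / cp (1 / 2) (f n) δ) atTop atTop := by
  refine ⟨Vn, inferInstance, inferInstance, fn, card_tendsto, fun n => ff_mono _ _ _ _,
    vari_lower, fun n v => ?_, fun n v w => ?_, noise, fun δ h0 h1 =>
    ⟨fun n => fn_cp_pos n h0 h1.le, ratio h0 h1⟩⟩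
  · have h := (infl_bounds n v).1
    have h2 : (0 : ℝ) < (1 / 2 : ℝ) ^ (KK n - 1) / 8 := by positivity
    linarith
  · have h1 := (infl_bounds n v).2
    have h2 := (infl_bounds n w).1
    linarith

end Pool.Agent.Results.MP_b26fee_pr.ClueProfileDisproof
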